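import Pool.Agent.H71.SM.Dys
import Pool.Agent.H75.INF.Psi
import Pool.Agent.H75.INF.Fin
import Pool.Agent.H75.INF.Fam
import Pool.Agent.H75.INF.Cor

/-!
# A homomorphism which is injective on the conjugates of a proper standard parabolic subgroup

`sepJ`: the proof of `H75.INF.sep` with an arbitrary set `J ≠ univ` instead of `{s, t}ᶜ`; the dynamics is `dys`. `loc_hom`: for
finitely many pairs `(J, a)`, one homomorphism from `gw M w` to a group in the class which is injective on all subgroups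
`gw M w ∩ a (ap M J) a⁻¹`. `mem_of_gw`: the Artin group is in the class if all groups `gw M w` are.
-/

set_option autoImplicit false

namespace Pool.Agent.H71.SM

open CoxeterSystem Pool.H8.CDW Pool.Agent.H52.PAG Pool.Agent.H93.TR Pool.Agent.H98.FJ Pool.Agent.H75.INF

variable {C : (G : Type) → [Group G] → Prop} {B : Type} (M : CoxeterMatrix B)

private theorem zq_finite {W : Type} [Group W] (w : W) {n : ℕ} (hn : 0 < n) :
    Finite (Subgroup.zpowers w ⧸ (Subgroup.zpowers (w ^ n)).subgroupOf (Subgroup.zpowers w)) := by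
  let F : Fin n → Subgroup.zpowers w ⧸ (Subgroup.zpowers (w ^ n)).subgroupOf (Subgroup.zpowers w) :=
    fun i => QuotientGroup.mk ⟨w ^ (i : ℕ), Subgroup.npow_mem_zpowers w i⟩
  refine Finite.of_surjective F ?_
  intro x
  obtain ⟨⟨y, j, rfl⟩, rfl⟩ := QuotientGroup.mk_surjective x
  have hn0 : (0 : ℤ) < n := by exact_mod_cast hn
  have h1 := Int.emod_nonneg j hn0.ne'
  have h2 := Int.emod_lt_of_pos j hn0
  refine ⟨⟨(j % n).toNat, by omega⟩, ?_⟩
  refine QuotientGroup.eq.2 ?_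
  rw [Subgroup.mem_subgroupOf, Subgroup.mem_zpowers_iff]
  refine ⟨j / n, ?_⟩
  show (w ^ n) ^ (j / n) = (w ^ ((j % n).toNat))⁻¹ * w ^ j
  rw [← zpow_natCast w ((j % n).toNat), Int.toNat_of_nonneg h1, ← zpow_natCast w n, ← zpow_mul,
    ← zpow_neg, ← zpow_add]
  congr 1
  have h3 := Int.emod_add_mul_ediv j n
  linarith

private theorem gen_index {A W : Type} [Group A] [Group W] (f : A →* W) (w : W) {n : ℕ} (hn : 0 < n) :
    (((Subgroup.zpowers (w ^ n)).comap f).subgroupOf ((Subgroup.zpowers w).comap f)).Normal ∧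
      (((Subgroup.zpowers (w ^ n)).comap f).subgroupOf ((Subgroup.zpowers w).comap f)).FiniteIndex := by
  constructor
  · constructor
    rintro ⟨k, hk⟩ hk' ⟨g, hg⟩
    obtain ⟨i, hi⟩ := Subgroup.mem_zpowers_iff.1 (Subgroup.mem_comap.1 hg)
    rw [Subgroup.mem_subgroupOf] at hk' ⊢
    obtain ⟨j, hj⟩ := Subgroup.mem_zpowers_iff.1 (Subgroup.mem_comap.1 hk')
    refine Subgroup.mem_comap.2 (Subgroup.mem_zpowers_iff.2 ⟨j, ?_⟩)
    show (w ^ n) ^ j = f (g * k * g⁻¹)
    have hj' : (w ^ n) ^ j = f k := hj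
    rw [map_mul, map_mul, map_inv, ← hi, ← hj', ← zpow_natCast w n, ← zpow_mul, ← zpow_add, ← zpow_neg,
      ← zpow_add]
    congr 1
    ring
  · have := zq_finite w hn
    rw [Subgroup.finiteIndex_iff_finite_quotient]
    let F : ((Subgroup.zpowers w).comap f ⧸
        ((Subgroup.zpowers (w ^ n)).comap f).subgroupOf ((Subgroup.zpowers w).comap f)) →
        Subgroup.zpowers w ⧸ (Subgroup.zpowers (w ^ n)).subgroupOf (Subgroup.zpowers w) :=
      Quotient.map' (fun h => ⟨f h.1, h.2⟩) (by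
        intro a b hab
        rw [QuotientGroup.leftRel_apply] at hab ⊢
        rw [Subgroup.mem_subgroupOf] at hab ⊢
        have h1 : f ((a : A)⁻¹ * (b : A)) ∈ Subgroup.zpowers (w ^ n) := hab
        rw [map_mul, map_inv] at h1
        exact h1)
    refine Finite.of_injective F ?_
    intro x y hxy
    obtain ⟨a, rfl⟩ := QuotientGroup.mk_surjective x
    obtain ⟨b, rfl⟩ := QuotientGroup.mk_surjective y
    have h1 : (QuotientGroup.mk (⟨f a.1, a.2⟩ : Subgroup.zpowers w) :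
        Subgroup.zpowers w ⧸ (Subgroup.zpowers (w ^ n)).subgroupOf (Subgroup.zpowers w)) =
        QuotientGroup.mk ⟨f b.1, b.2⟩ := hxy
    rw [QuotientGroup.eq, Subgroup.mem_subgroupOf] at h1 ⊢
    have h2 : (f a.1)⁻¹ * f b.1 ∈ Subgroup.zpowers (w ^ n) := h1
    rw [← map_inv, ← map_mul] at h2
    exact h2

private theorem transport (hC : Inherits C) {A W : Type} [Group A] [Group W] (f : A →* W) (w w' : W) {n : ℕ}
    (hn : 0 < n) (hw : w' = w ^ n) (N₀ : Subgroup ((Subgroup.zpowers w').comap f)) (hN : IsKer C N₀) :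
    ∃ N : Subgroup ((Subgroup.zpowers w).comap f), IsKer C N ∧
      ∀ x ∈ N, ∃ y ∈ N₀, (y : A) = x := by
  subst hw
  obtain ⟨h1, h2⟩ := gen_index f w hn
  let ψ : ((Subgroup.zpowers (w ^ n)).comap f).subgroupOf ((Subgroup.zpowers w).comap f) →*
      (Subgroup.zpowers (w ^ n)).comap f :=
    { toFun := fun x => ⟨(x.1 : A), x.2⟩
      map_one' := rfl
      map_mul' := fun _ _ => rfl }
  obtain ⟨N, hN1, hN2⟩ := isKer_core hC _ h1 h2 (N₀.comap ψ) (hN.comap ψ)
  refine ⟨N, hN1, fun x hx => ?_⟩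
  obtain ⟨h3, h4⟩ := hN2 x hx
  exact ⟨ψ ⟨x, h3⟩, h4, rfl⟩

theorem sepJ (hC : Inherits C) (hE : Extension C) [Finite B] (hW : C M.Group)
    (hK : ∀ K : Set B, K ≠ Set.univ → C (ap M K)) (J : Set B) (hJ : J ≠ Set.univ) (w : M.Group) (a : Art M) :
    ∃ N : Subgroup (gw M w), IsKer C N ∧ ∀ h ∈ N, a⁻¹ * (h : Art M) * a ∈ ap M J → h = 1 := by
  obtain ⟨m, hm, hdys⟩ := dys M w
  obtain ⟨K, g, hKu, hnor, hfin⟩ := hdys J hJ (toCox M a)
  obtain ⟨e, he, hpsi⟩ := psi M K g (w ^ m) hnor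
  have hfin' : ∀ x, x ∉ pc M.toCoxeterSystem K g →
      {j : ℤ | x ∈ pc M.toCoxeterSystem J (((w ^ m) ^ e) ^ j * toCox M a)}.Finite := by
    intro x hx
    have h1 := hfin x hx
    have hinj : Function.Injective (fun j : ℤ => (e : ℤ) * j) := by
      intro i j hij
      have h2 : (e : ℤ) ≠ 0 := by exact_mod_cast he.ne'
      exact mul_left_cancel₀ h2 hij
    refine Set.Finite.subset (h1.preimage hinj.injOn) ?_
    intro j hj
    show x ∈ pc M.toCoxeterSystem J ((w ^ m) ^ ((e : ℤ) * j) * toCox M a)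
    rw [zpow_mul, zpow_natCast]
    exact hj
  obtain ⟨N₀, hN₀, hN₀'⟩ := fam_cy M hC hE K J (hK K hKu) (hK _ hJ) hW ((w ^ m) ^ e)
    g⁻¹ (toCox M a)⁻¹ hpsi (fun h h1 => fin_cy M K J g ((w ^ m) ^ e) (toCox M a) hfin' h h1)
  obtain ⟨N, hN, hN'⟩ := transport hC (toCox M) w ((w ^ m) ^ e) (Nat.mul_pos hm he) (pow_mul w m e).symm N₀ hN₀
  refine ⟨N, hN, fun h hh hz => ?_⟩
  obtain ⟨y, hy, hyh⟩ := hN' h hh
  obtain ⟨h1, h2⟩ := hN₀' y hy
  have hyh' : ((y : gw M ((w ^ m) ^ e)) : Art M) = (h : Art M) := hyh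
  rw [hyh'] at h1 h2
  obtain ⟨z, hzd⟩ : ∃ z : Art M, z = a⁻¹ * (h : Art M) * a := ⟨_, rfl⟩
  rw [← hzd] at hz
  have hhz : (h : Art M) = a * z * a⁻¹ := by
    rw [hzd]
    group
  have h3 : toCox M z = 1 := by
    rw [hzd, map_mul, map_mul, h1, mul_one, map_inv, inv_mul_cancel]
  have h4 := (cy_spec M J).conj (y := (toCox M a)⁻¹) (a := a) (x := z)
    (by rw [inv_mul_cancel]; exact one_mem _) (by rw [h3]; exact one_mem _)
  rw [← hhz, h2] at h4
  have h5 : cy M J 1 z = 1 := by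
    have h6 := congrArg (fun x => (cy M J (toCox M a)⁻¹ a)⁻¹ * x *
      cy M J (toCox M a)⁻¹ a) h4
    simp only [mul_one, inv_mul_cancel] at h6
    rw [h6]
    group
  rw [cy_base hz] at h5
  apply Subtype.ext
  rw [hhz, h5, mul_one, mul_inv_cancel]
  rfl


/-- finitely many conjugates of proper parabolic subgroups -/
theorem loc_hom (hC : Inherits C) (hE : Extension C) [Finite B] (hW : C M.Group)
    (hK : ∀ K : Set B, K ≠ Set.univ → C (ap M K)) (w : M.Group) {ι : Type} [Finite ι] (J : ι → Set B)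
    (hJ : ∀ i, J i ≠ Set.univ) (a : ι → Art M) :
    ∃ (Q : Type) (_ : Group Q) (f : gw M w →* Q), C Q ∧
      ∀ i, ∀ h : gw M w, (a i)⁻¹ * (h : Art M) * a i ∈ ap M (J i) → f h = 1 → h = 1 := by
  classical
  have := Fintype.ofFinite ι
  choose N hN hN' using fun i => sepJ M hC hE hW hK (J i) (hJ i) w (a i)
  obtain ⟨Q, hQ, f, hf, hker⟩ := IsKer.inf hC N hN
  refine ⟨Q, hQ, f, hf, fun i h hi h1 => hN' i h ?_ hi⟩
  have h2 : h ∈ f.ker := h1
  rw [hker] at h2
  exact (Subgroup.mem_iInf.1 h2) i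

/-- the reduction to the preimages of the cyclic subgroups of the Coxeter group -/
theorem mem_of_gw (hC : Inherits C) (hE : Extension C) (hW : C M.Group) (h : ∀ w : M.Group, C (gw M w)) :
    C (Art M) := by
  have hL : IsKer C (pureA M) := ⟨M.Group, inferInstance, toCox M, hW, rfl⟩
  refine IsKer.mem_of_bot hC (IsKer.ext hC hE inferInstance hL bot_le fun x _ => ?_)
  have hle : pureA M ⊔ Subgroup.zpowers x ≤ gw M (toCox M x) := by
    refine sup_le ?_ ?_
    · intro h hh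
      have h1 : toCox M h = 1 := hh
      rw [mem_gw]
      exact ⟨0, by rw [zpow_zero, h1]⟩
    · intro h hh
      obtain ⟨n, rfl⟩ := Subgroup.mem_zpowers_iff.1 hh
      rw [mem_gw]
      exact ⟨n, by rw [map_zpow]⟩
  rw [Subgroup.bot_subgroupOf]
  exact IsKer.of_mem (hC.of_injective (Subgroup.inclusion hle) (Subgroup.inclusion_injective hle)
    (h (toCox M x)))

end Pool.Agent.H71.SM
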