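import Pool.Agent.H75.INF.Lib
import Pool.Agent.H75.INF.Pcl

/-!
# The geometric representation over a ring which is a finitely generated abelian group; stabilisers of vectors

`mat_rep`: `rho` is given by matrices over `cosRing F`. `par_iff`: `x` is in the standard parabolic subgroup `par J` if and only if
`rho x` preserves the linear form `λ_J`, the sum of the coordinates outside `J`.
-/

set_option autoImplicit false

namespace Pool.Agent.H71.SM

open CoxeterSystem Pool.H8.CDW Pool.Agent.H54.AR Pool.Agent.H75.INF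

section fix

variable {B W : Type} [Group W] {M : CoxeterMatrix B} (cs : CoxeterSystem M W)

/-- the sum of the coordinates outside `J` -/
noncomputable def lam [Fintype B] (J : Set B) : (B →₀ ℝ) →ₗ[ℝ] ℝ := by
  classical
  exact ∑ k, if k ∈ J then 0 else Finsupp.lapply k

theorem lam_apply [Fintype B] (J : Set B) [DecidablePred (· ∈ J)] (v : B →₀ ℝ) :
    lam J v = ∑ k, if k ∈ J then 0 else v k := by
  unfold lam
  rw [LinearMap.sum_apply]
  refine Finset.sum_congr rfl fun k _ => ?_
  by_cases h : k ∈ J
  · rw [if_pos h, if_pos h]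
    rfl
  · rw [if_neg h, if_neg h]
    rfl

theorem lam_par [Fintype B] (J : Set B) {x : W} (hx : x ∈ par cs J) (v : B →₀ ℝ) :
    lam J (rho cs x v) = lam J v := by
  classical
  have key : ∀ y ∈ par cs J, ∀ v : B →₀ ℝ, lam J (rho cs y v) = lam J v := by
    intro y hy
    refine Subgroup.closure_induction (p := fun y _ => ∀ v : B →₀ ℝ, lam J (rho cs y v) = lam J v) ?_ ?_ ?_ ?_ hy
    · rintro _ ⟨j, hj, rfl⟩ v
      rw [rho_simple, c1_grefl_apply, map_sub, map_smul]
      have h1 : lam J (Finsupp.single j (1 : ℝ)) = 0 := by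
        rw [lam_apply]
        refine Finset.sum_eq_zero fun k _ => ?_
        split_ifs with hk
        · rfl
        · rw [Finsupp.single_apply, if_neg]
          rintro rfl
          exact hk hj
      rw [h1, smul_zero, sub_zero]
    · intro v
      rw [map_one, Module.End.one_apply]
    · intro a b _ _ ha hb v
      rw [map_mul, Module.End.mul_apply, ha, hb]
    · intro a _ ha v
      have h1 := ha (rho cs a⁻¹ v)
      rw [← Module.End.mul_apply, ← map_mul, mul_inv_cancel, map_one, Module.End.one_apply] at h1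
      exact h1.symm
  exact key x hx v

theorem par_of_lam [Fintype B] (J : Set B) {x : W} (h : ∀ i : B, lam J (rho cs x (Finsupp.single i 1)) =
    lam J (Finsupp.single i 1)) : x ∈ par cs J := by
  classical
  have hκ := ps_mem cs J x
  have hu := mr_isL cs J x
  have hx := ps_mul_mr cs J x
  by_cases hu1 : mr cs J x = 1
  · rw [← hx, hu1, mul_one]
    exact hκ
  exfalso
  obtain ⟨u, hue⟩ : ∃ u, u = mr cs J x := ⟨_, rfl⟩
  rw [← hue] at hu hx hu1
  obtain ⟨i, hi⟩ := cs.exists_rightDescent_of_ne_one hu1
  have h1 : cs.length (u * cs.simple i) < cs.length (u * cs.simple i * cs.simple i) := by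
    rw [simple_mul_simple_cancel_right]
    exact hi
  -- `rho u e_i` is negative
  have h2 : ∀ k, rho cs u (Finsupp.single i 1) k ≤ 0 := by
    intro k
    have h3 := pos_root cs _ i h1 k
    have h4 : rho cs u (Finsupp.single i 1) = -rho cs (u * cs.simple i) (Finsupp.single i 1) := by
      have h5 : rho cs (u * cs.simple i) (Finsupp.single i 1) = -rho cs u (Finsupp.single i 1) := by
        rw [map_mul, Module.End.mul_apply, rho_simple, c1_grefl_apply, c1_self, ← map_neg]
        congr 1
        module
      rw [h5, neg_neg]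
    rw [h4, Finsupp.neg_apply]
    linarith
  have h3 : lam J (rho cs u (Finsupp.single i 1)) = lam J (Finsupp.single i 1) := by
    rw [← h i, ← hx, map_mul, Module.End.mul_apply, lam_par cs J hκ]
  have h4 : lam J (rho cs u (Finsupp.single i 1)) ≤ 0 := by
    rw [lam_apply]
    refine Finset.sum_nonpos fun k _ => ?_
    split_ifs
    · exact le_rfl
    · exact h2 k
  have hiJ : i ∈ J := by
    by_contra hiJ
    have h5 : lam J (Finsupp.single i (1 : ℝ)) = 1 := by
      rw [lam_apply, Finset.sum_eq_single i]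
      · rw [if_neg hiJ, Finsupp.single_eq_same]
      · intro k _ hk
        split_ifs
        · rfl
        · rw [Finsupp.single_apply, if_neg (Ne.symm hk)]
      · intro h6
        exact absurd (Finset.mem_univ i) h6
    rw [h3, h5] at h4
    linarith
  have h5 : lam J (Finsupp.single i (1 : ℝ)) = 0 := by
    rw [lam_apply]
    refine Finset.sum_eq_zero fun k _ => ?_
    split_ifs with hk
    · rfl
    · rw [Finsupp.single_apply, if_neg]
      rintro rfl
      exact hk hiJ
  -- the coordinates outside `J` are zero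
  have h6 : ∀ k, k ∉ J → rho cs u (Finsupp.single i 1) k = 0 := by
    intro k hk
    rw [h5, lam_apply] at h3
    have h7 := (Finset.sum_eq_zero_iff_of_nonpos (s := Finset.univ)
      (f := fun k => if k ∈ J then (0 : ℝ) else rho cs u (Finsupp.single i 1) k) (fun k _ => by
        split_ifs
        · exact le_rfl
        · exact h2 k)).1 h3 k (Finset.mem_univ k)
    rwa [if_neg hk] at h7
  have h7 : ∀ k ∈ J, 0 ≤ rho cs u⁻¹ (Finsupp.single k 1) i := by
    intro k hk
    refine pos_root cs _ k ?_ i
    have h8 := cs.not_isLeftDescent_iff.1 (hu k hk)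
    have h9 : cs.length (u⁻¹ * cs.simple k) = cs.length (cs.simple k * u) := by
      rw [← cs.length_inv, mul_inv_rev, inv_inv, cs.inv_simple]
    rw [h9, h8, cs.length_inv]
    exact Nat.lt_succ_self _
  have h8 : rho cs u⁻¹ (rho cs u (Finsupp.single i 1)) = Finsupp.single i 1 := by
    rw [← Module.End.mul_apply, ← map_mul, inv_mul_cancel, map_one, Module.End.one_apply]
  have h9 : rho cs u (Finsupp.single i 1) =
      ∑ k, rho cs u (Finsupp.single i 1) k • Finsupp.single k (1 : ℝ) := by
    ext l
    rw [Finsupp.finsetSum_apply, Finset.sum_eq_single l]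
    · rw [Finsupp.smul_apply, Finsupp.single_eq_same, smul_eq_mul, mul_one]
    · intro k _ hk
      rw [Finsupp.smul_apply, Finsupp.single_apply, if_neg hk, smul_zero]
    · intro h10
      exact absurd (Finset.mem_univ l) h10
  have h10 := congrArg (fun v : B →₀ ℝ => v i) h8
  rw [h9, map_sum, Finsupp.finsetSum_apply, Finsupp.single_eq_same] at h10
  have h11 : ∑ k, (rho cs u⁻¹ (rho cs u (Finsupp.single i 1) k • Finsupp.single k (1 : ℝ))) i ≤ 0 := by
    refine Finset.sum_nonpos fun k _ => ?_
    rw [map_smul, Finsupp.smul_apply, smul_eq_mul]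
    by_cases hk : k ∈ J
    · exact mul_nonpos_of_nonpos_of_nonneg (h2 k) (h7 k hk)
    · rw [h6 k hk, zero_mul]
  rw [h10] at h11
  linarith

theorem par_iff [Fintype B] (J : Set B) (x : W) : x ∈ par cs J ↔ ∀ i : B, lam J (rho cs x (Finsupp.single i 1)) =
    lam J (Finsupp.single i 1) :=
  ⟨fun h _ => lam_par cs J h _, par_of_lam cs J⟩

end fix

section mat

private theorem exists_phi (F : Finset ℕ) (B : Type) [Fintype B] [DecidableEq B] :
    ∃ Φ : Matrix B B (cosRing F) →* Module.End ℝ (B →₀ ℝ), Function.Injective Φ ∧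
      ∀ (A : Matrix B B (cosRing F)) (l : B), Φ A (Finsupp.single l 1) =
        ∑ k, ((A k l : cosRing F) : ℝ) • Finsupp.single k (1 : ℝ) := by
  obtain ⟨f, hf⟩ : ∃ f : cosRing F →+* ℝ, ∀ x, f x = (x : ℝ) := ⟨(cosRing F).val.toRingHom, fun _ => rfl⟩
  have hfi : Function.Injective f := fun x y h => Subtype.ext (by rw [← hf, ← hf, h])
  refine ⟨((Matrix.toLinAlgEquiv (Finsupp.basisSingleOne (R := ℝ) (ι := B)) :
    Matrix B B ℝ ≃ₐ[ℝ] Module.End ℝ (B →₀ ℝ)) : Matrix B B ℝ →* Module.End ℝ (B →₀ ℝ)).comp
      (f.mapMatrix : Matrix B B (cosRing F) →+* Matrix B B ℝ).toMonoidHom, ?_, ?_⟩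
  · intro X Y h
    have h1 : f.mapMatrix X = f.mapMatrix Y :=
      (Matrix.toLinAlgEquiv (Finsupp.basisSingleOne (R := ℝ) (ι := B))).injective h
    ext i j
    have h2 : f (X i j) = f (Y i j) := congrFun (congrFun h1 i) j
    exact congrArg _ (hfi h2)
  · intro A l
    have h1 := Matrix.toLin_self (Finsupp.basisSingleOne (R := ℝ) (ι := B))
      (Finsupp.basisSingleOne (R := ℝ) (ι := B)) (f.mapMatrix A) l
    simp only [Finsupp.coe_basisSingleOne, RingHom.mapMatrix_apply, Matrix.map_apply, hf] at h1
    exact h1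

/-- The geometric representation is given by matrices over a ring `cosRing F`. -/
theorem mat_rep {B : Type} [Fintype B] [DecidableEq B] (M : CoxeterMatrix B) : ∃ (F : Finset ℕ)
    (r : M.Group →* Matrix B B (cosRing F)), ∀ (x : M.Group) (k l : B),
      ((r x k l : cosRing F) : ℝ) = rho M.toCoxeterSystem x (Finsupp.single l 1) k := by
  obtain ⟨F, hF⟩ : ∃ F : Finset ℕ, ∀ i j, M i j ∈ F :=
    ⟨Finset.univ.image fun p : B × B => M p.1 p.2, fun i j =>
      Finset.mem_image.2 ⟨(i, j), Finset.mem_univ _, rfl⟩⟩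
  have hc : ∀ i j, ∃ x : cosRing F, (x : ℝ) = if M i j = 0 then 2 else 2 * Real.cos (Real.pi / M i j) := by
    intro i j
    by_cases h : M i j = 0
    · refine ⟨2, ?_⟩
      rw [if_pos h]
      rfl
    · refine ⟨⟨_, mem_cosRing (hF i j)⟩, ?_⟩
      rw [if_neg h]
  choose c hc using hc
  obtain ⟨Φ, hΦi, hΦ⟩ := exists_phi F B
  obtain ⟨A, hA⟩ : ∃ A : B → Matrix B B (cosRing F), ∀ i k l, A i k l =
      (if k = l then 1 else 0) + (if k = i then c i l else 0) :=
    ⟨fun i => Matrix.of fun k l => (if k = l then 1 else 0) + (if k = i then c i l else 0), fun _ _ _ => rfl⟩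
  have hΦA : ∀ i, Φ (A i) = grefl M i := by
    intro i
    refine (Finsupp.basisSingleOne (R := ℝ) (ι := B)).ext fun l => ?_
    rw [Finsupp.coe_basisSingleOne, hΦ, c1_grefl_apply, c1_gform_single]
    have h1 : ∀ k, ((A i k l : cosRing F) : ℝ) • Finsupp.single k (1 : ℝ) =
        (if k = l then Finsupp.single k (1 : ℝ) else 0) +
          (if k = i then (c i l : ℝ) • Finsupp.single k (1 : ℝ) else 0) := by
      intro k
      rw [hA]
      push_cast
      rw [add_smul]
      congr 1
      · split_ifs
        · rw [Subalgebra.coe_one, one_smul]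
        · rw [Subalgebra.coe_zero, zero_smul]
      · split_ifs
        · rfl
        · rw [Subalgebra.coe_zero, zero_smul]
    rw [Finset.sum_congr rfl fun k _ => h1 k, Finset.sum_add_distrib, Finset.sum_ite_eq', Finset.sum_ite_eq',
      if_pos (Finset.mem_univ _), if_pos (Finset.mem_univ _), hc, sub_eq_add_neg, ← neg_smul]
    congr 2
    split_ifs
    · norm_num
    · ring
  have hlift : M.IsLiftable A := by
    intro i j
    apply hΦi
    rw [map_pow, map_mul, map_one, hΦA, hΦA]
    exact grefl_liftable M i j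
  obtain ⟨r, hr⟩ : ∃ r : M.Group →* Matrix B B (cosRing F), ∀ i, r (M.toCoxeterSystem.simple i) = A i :=
    ⟨M.toCoxeterSystem.lift ⟨A, hlift⟩, fun i => M.toCoxeterSystem.lift_apply_simple hlift i⟩
  have hcomp : Φ.comp r = rho M.toCoxeterSystem := by
    refine M.toCoxeterSystem.ext_simple fun i => ?_
    rw [MonoidHom.comp_apply, hr, hΦA, rho_simple]
  refine ⟨F, r, fun x k l => ?_⟩
  rw [← hcomp, MonoidHom.comp_apply, hΦ, Finsupp.finsetSum_apply, Finset.sum_eq_single k]
  · rw [Finsupp.smul_apply, Finsupp.single_eq_same, smul_eq_mul, mul_one]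
  · intro k' _ hk
    rw [Finsupp.smul_apply, Finsupp.single_apply, if_neg hk, smul_zero]
  · intro h10
    exact absurd (Finset.mem_univ k) h10

end mat

end Pool.Agent.H71.SM
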