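import Pool.Agent.H71.SM.Sml
import Pool.Agent.H71.SM.Rep

/-!
# Dynamics of an element of a Coxeter group on the parabolic subgroups

`dys`: for `w` there is `m > 0` such that for every standard parabolic `par J`, `J ≠ univ`, and every `b` there is a
parabolic subgroup `pc K g`, `K ≠ univ`, normalised by `w ^ m`, such that every `x` outside of it is in only finitely many of the
subgroups `pc J ((w ^ m) ^ j * b)`, `j : ℤ`.

Proof: `x ∈ pc J ((w ^ m) ^ j * b)` iff `λ_J (b⁻¹ (w ^ m) ^ (-j) (x - 1) e_i) = 0` for all `i` (`par_iff`). This is a condition on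
integral linear forms of the powers of a matrix which is congruent to one modulo three (`sml_int`), so it holds for
finitely many `j` or for all `j`.
-/

set_option autoImplicit false

namespace Pool.Agent.H71.SM

open Matrix CoxeterSystem Pool.H8.CDW Pool.Agent.H54.AR Pool.Agent.H75.INF

variable {B : Type}

/-- the linear form of `lam` over the ring `R` -/
private noncomputable def lamR {R : Type} [CommRing R] [Fintype B] (J : Set B) : B → R := by
  classical
  exact fun k => if k ∈ J then 0 else 1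

/-- the dot product as a linear map -/
private noncomputable def dotProductBilin' {R : Type} [CommRing R] [Fintype B] (u : B → R) : (B → R) →ₗ[R] R where
  toFun v := u ⬝ᵥ v
  map_add' _ _ := dotProduct_add _ _ _
  map_smul' _ _ := dotProduct_smul _ _ _

private theorem mem_pc_iff [Fintype B] [DecidableEq B] (M : CoxeterMatrix B) {F : Finset ℕ}
    {r : M.Group →* Matrix B B (cosRing F)}
    (hr : ∀ (x : M.Group) (k l : B), ((r x k l : cosRing F) : ℝ) = rho M.toCoxeterSystem x (Finsupp.single l 1) k)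
    (J : Set B) (x y : M.Group) : x ∈ pc M.toCoxeterSystem J y ↔
      ∀ l, ((lamR J : B → cosRing F) ᵥ* r y⁻¹) ⬝ᵥ (fun k => (r x - 1) k l) = 0 := by
  classical
  have h1 : ∀ (z : M.Group) (l : B), lam J (rho M.toCoxeterSystem z (Finsupp.single l 1)) =
      ((((lamR J : B → cosRing F) ᵥ* r z) l : cosRing F) : ℝ) := by
    intro z l
    rw [lam_apply, Matrix.vecMul, dotProduct]
    push_cast
    refine Finset.sum_congr rfl fun k _ => ?_
    rw [hr]
    unfold lamR
    split_ifs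
    · simp
    · simp
  have h2 : x ∈ pc M.toCoxeterSystem J y ↔
      (lamR J : B → cosRing F) ᵥ* r (y⁻¹ * x * y) = lamR J := by
    rw [mem_pc, par_iff, funext_iff]
    refine forall_congr' fun l => ?_
    have h3 := h1 1 l
    rw [map_one, Module.End.one_apply, map_one, Matrix.vecMul_one] at h3
    rw [h1, h3]
    exact ⟨fun h => Subtype.ext h, fun h => congrArg _ h⟩
  have h3 : (lamR J : B → cosRing F) ᵥ* r (y⁻¹ * x * y) = lamR J ↔
      (lamR J : B → cosRing F) ᵥ* r y⁻¹ ᵥ* (r x - 1) = 0 := by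
    rw [map_mul, map_mul, Matrix.vecMul_sub, Matrix.vecMul_one, sub_eq_zero, ← Matrix.vecMul_vecMul,
      ← Matrix.vecMul_vecMul]
    constructor
    · intro h
      have h4 := congrArg (fun v => v ᵥ* r y⁻¹) h
      simp only [Matrix.vecMul_vecMul] at h4 ⊢
      rw [mul_assoc, mul_assoc, ← map_mul r y y⁻¹, mul_inv_cancel, map_one, mul_one] at h4
      exact h4
    · intro h
      rw [h, Matrix.vecMul_vecMul, ← map_mul, inv_mul_cancel, map_one, Matrix.vecMul_one]
  rw [h2, h3, funext_iff]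
  rfl

/-- the action on column vectors -/
private noncomputable def act {F : Finset ℕ} [Fintype B] [DecidableEq B] {M : CoxeterMatrix B}
    (r : M.Group →* Matrix B B (cosRing F)) : M.Group →* Module.End ℤ (B → cosRing F) where
  toFun x := (Matrix.mulVecLin (r x)).restrictScalars ℤ
  map_one' := by
    ext v k
    simp
  map_mul' x y := by
    refine LinearMap.ext fun v => ?_
    change (r (x * y)) *ᵥ v = (r x) *ᵥ ((r y) *ᵥ v)
    rw [map_mul, Matrix.mulVec_mulVec]

private theorem act_apply {F : Finset ℕ} [Fintype B] [DecidableEq B] {M : CoxeterMatrix B}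
    (r : M.Group →* Matrix B B (cosRing F)) (x : M.Group) (v : B → cosRing F) : act r x v = r x *ᵥ v := rfl

private theorem finite_quot (F : Finset ℕ) : Finite (cosRing F ⧸ (Ideal.span {(3 : cosRing F)})) := by
  have h1 : Module.Finite ℤ (cosRing F ⧸ (Ideal.span {(3 : cosRing F)})) :=
    Module.Finite.of_surjective ((Ideal.Quotient.mk (Ideal.span {(3 : cosRing F)})).toAddMonoidHom.toIntLinearMap)
      Ideal.Quotient.mk_surjective
  refine Module.finite_of_fg_torsion _ ?_
  intro x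
  refine ⟨⟨3, mem_nonZeroDivisors_of_ne_zero (by norm_num)⟩, ?_⟩
  obtain ⟨y, rfl⟩ := Ideal.Quotient.mk_surjective x
  change (3 : ℤ) • (Ideal.Quotient.mk (Ideal.span {(3 : cosRing F)})) y = 0
  rw [← map_zsmul, Ideal.Quotient.eq_zero_iff_mem, Ideal.mem_span_singleton]
  exact ⟨y, by rw [zsmul_eq_mul]; norm_num⟩

/-- a power of `w` is congruent to one modulo three -/
private theorem exists_pow {F : Finset ℕ} [Fintype B] [DecidableEq B] {M : CoxeterMatrix B}
    (r : M.Group →* Matrix B B (cosRing F)) (w : M.Group) : ∃ m : ℕ, 0 < m ∧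
      (∃ A, act r (w ^ m) = 1 + 3 * A) ∧ ∃ A, act r (w ^ m)⁻¹ = 1 + 3 * A := by
  have := finite_quot F
  have := Fintype.ofFinite (cosRing F ⧸ (Ideal.span {(3 : cosRing F)}))
  classical
  obtain ⟨q, hq⟩ : ∃ q : Matrix B B (cosRing F) →* Matrix B B (cosRing F ⧸ (Ideal.span {(3 : cosRing F)})),
      ∀ X k l, q X k l = Ideal.Quotient.mk _ (X k l) :=
    ⟨((Ideal.Quotient.mk (Ideal.span {(3 : cosRing F)})).mapMatrix :
      Matrix B B (cosRing F) →+* Matrix B B (cosRing F ⧸ (Ideal.span {(3 : cosRing F)}))).toMonoidHom,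
      fun _ _ _ => rfl⟩
  have hfin : Finite (Matrix B B (cosRing F ⧸ (Ideal.span {(3 : cosRing F)}))) := inferInstance
  obtain ⟨m, hm, hm'⟩ := (isOfFinOrder_iff_pow_eq_one).1
    (isOfFinOrder_of_finite ((q.comp r).toHomUnits w))
  rw [← map_pow] at hm'
  have h1 : q (r (w ^ m)) = 1 := congrArg Units.val hm'
  have h2 : q (r (w ^ m)⁻¹) = 1 := by
    have h3 : (q.comp r).toHomUnits (w ^ m)⁻¹ = 1 := by rw [map_inv, hm', inv_one]
    exact congrArg Units.val h3
  have key : ∀ x : M.Group, q (r x) = 1 → ∃ A, act r x = 1 + 3 * A := by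
    intro x hx
    have h4 : ∀ k l, ∃ a : cosRing F, r x k l = (1 : Matrix B B (cosRing F)) k l + 3 * a := by
      intro k l
      have h5 : q (r x - 1) k l = 0 := by
        rw [hq, Matrix.sub_apply, map_sub, ← hq, hx, sub_eq_zero]
        by_cases h : k = l
        · rw [h, Matrix.one_apply_eq, Matrix.one_apply_eq, map_one]
        · rw [Matrix.one_apply_ne h, Matrix.one_apply_ne h, map_zero]
      rw [hq, Ideal.Quotient.eq_zero_iff_mem, Ideal.mem_span_singleton] at h5
      obtain ⟨a, ha⟩ := h5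
      rw [Matrix.sub_apply] at ha
      exact ⟨a, by rw [← ha, add_sub_cancel]⟩
    choose a ha using h4
    refine ⟨(Matrix.mulVecLin (Matrix.of a)).restrictScalars ℤ, ?_⟩
    refine LinearMap.ext fun v => ?_
    have h6 : r x = 1 + (3 : ℕ) • Matrix.of a := by
      ext1 k l
      rw [ha, Matrix.add_apply, Matrix.smul_apply, Matrix.of_apply, nsmul_eq_mul]
      norm_num
    have h7 : ((3 : Module.End ℤ (B → cosRing F)) * (Matrix.mulVecLin (Matrix.of a)).restrictScalars ℤ) =
        (3 : ℕ) • (Matrix.mulVecLin (Matrix.of a)).restrictScalars ℤ := by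
      rw [nsmul_eq_mul]
      norm_num
    rw [act_apply, h6, h7, Matrix.add_mulVec, Matrix.one_mulVec, Matrix.smul_mulVec]
    rfl
  exact ⟨m, hm, key _ h1, key _ h2⟩

/-- finitely many or all -/
theorem fin_or_all [Finite B] (M : CoxeterMatrix B) (w : M.Group) : ∃ m : ℕ, 0 < m ∧ ∀ (J : Set B) (b x : M.Group),
    {j : ℤ | x ∈ pc M.toCoxeterSystem J ((w ^ m) ^ j * b)}.Infinite →
      ∀ j : ℤ, x ∈ pc M.toCoxeterSystem J ((w ^ m) ^ j * b) := by
  classical
  have := Fintype.ofFinite B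
  obtain ⟨F, r, hr⟩ := mat_rep M
  obtain ⟨m, hm, ⟨A, hA⟩, ⟨A', hA'⟩⟩ := exists_pow r w
  refine ⟨m, hm, fun J b x hinf => ?_⟩
  obtain ⟨β⟩ : Nonempty (Module.Basis (Module.Free.ChooseBasisIndex ℤ (cosRing F)) ℤ (cosRing F)) :=
    ⟨Module.Free.chooseBasis ℤ (cosRing F)⟩
  obtain ⟨f, hf⟩ : ∃ f : Module.Free.ChooseBasisIndex ℤ (cosRing F) → (B → cosRing F) →ₗ[ℤ] ℤ, ∀ d v,
      f d v = β.coord d (((lamR J : B → cosRing F) ᵥ* r b⁻¹) ⬝ᵥ v) := by
    refine ⟨fun d => (β.coord d).comp ((dotProductBilin' ((lamR J : B → cosRing F) ᵥ* r b⁻¹)).restrictScalars ℤ),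
      fun _ _ => rfl⟩
  have hiff : ∀ j : ℤ, x ∈ pc M.toCoxeterSystem J ((w ^ m) ^ j * b) ↔
      ∀ l d, f d (act r (((w ^ m)⁻¹) ^ j) (fun k => (r x - 1) k l)) = 0 := by
    intro j
    rw [mem_pc_iff M hr]
    refine forall_congr' fun l => ?_
    have h1 : ((lamR J : B → cosRing F) ᵥ* r ((w ^ m) ^ j * b)⁻¹) ⬝ᵥ (fun k => (r x - 1) k l) =
        ((lamR J : B → cosRing F) ᵥ* r b⁻¹) ⬝ᵥ (r (((w ^ m)⁻¹) ^ j) *ᵥ (fun k => (r x - 1) k l)) := by
      rw [_root_.mul_inv_rev, map_mul, ← Matrix.vecMul_vecMul, Matrix.dotProduct_mulVec, _root_.inv_zpow]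
    rw [h1]
    constructor
    · intro h d
      rw [hf, act_apply, h, map_zero]
    · intro h
      refine β.ext_elem fun d => ?_
      have h2 := h d
      rw [hf, act_apply] at h2
      rw [map_zero, Finsupp.zero_apply]
      exact h2
  intro j
  rw [hiff]
  intro l d
  refine sml_int (act r) (w ^ m)⁻¹ A' A hA' (by rw [inv_inv]; exact hA) (f d) _ ?_ j
  exact hinf.mono fun j hj => (hiff j).1 hj l d

theorem dys [Finite B] (M : CoxeterMatrix B) (w : M.Group) : ∃ m : ℕ, 0 < m ∧ ∀ J : Set B, J ≠ Set.univ →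
    ∀ b : M.Group, ∃ (K : Set B) (g : M.Group), K ≠ Set.univ ∧
      (∀ x, x ∈ pc M.toCoxeterSystem K g ↔ w ^ m * x * (w ^ m)⁻¹ ∈ pc M.toCoxeterSystem K g) ∧
      ∀ x, x ∉ pc M.toCoxeterSystem K g → {j : ℤ | x ∈ pc M.toCoxeterSystem J ((w ^ m) ^ j * b)}.Finite := by
  obtain ⟨m, hm, h⟩ := fin_or_all M w
  refine ⟨m, hm, fun J hJ b => ?_⟩
  obtain ⟨D, hD⟩ : ∃ D : Set M.Group, ∀ x, x ∈ D ↔ ∀ j : ℤ, x ∈ pc M.toCoxeterSystem J ((w ^ m) ^ j * b) :=
    ⟨{x | ∀ j : ℤ, x ∈ pc M.toCoxeterSystem J ((w ^ m) ^ j * b)}, fun _ => Iff.rfl⟩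
  obtain ⟨K, g, hK⟩ := exists_isPc M.toCoxeterSystem D
  have h1 : ∀ x, x ∈ pc M.toCoxeterSystem K g ↔ x ∈ D := by
    intro x
    constructor
    · intro hx
      rw [hD]
      intro j
      exact hK.le M.toCoxeterSystem (fun y hy => (hD y).1 hy j) hx
    · intro hx
      exact hK.1 hx
  refine ⟨K, g, hK.ne_univ M.toCoxeterSystem (fun y hy => (hD y).1 hy 0) hJ, fun x => ?_, fun x hx => ?_⟩
  · rw [h1, h1, hD, hD]
    have h2 : ∀ j : ℤ, x ∈ pc M.toCoxeterSystem J ((w ^ m) ^ j * b) ↔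
        w ^ m * x * (w ^ m)⁻¹ ∈ pc M.toCoxeterSystem J ((w ^ m) ^ (j + 1) * b) := by
      intro j
      rw [mem_pc, mem_pc]
      have h3 : ((w ^ m) ^ (j + 1) * b)⁻¹ * (w ^ m * x * (w ^ m)⁻¹) * ((w ^ m) ^ (j + 1) * b) =
          ((w ^ m) ^ j * b)⁻¹ * x * ((w ^ m) ^ j * b) := by
        rw [_root_.zpow_add, zpow_one, ← zpow_natCast, ← _root_.zpow_mul]
        group
      rw [h3]
    constructor
    · intro h3 j
      have h4 := (h2 (j - 1)).1 (h3 _)
      rwa [sub_add_cancel] at h4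
    · intro h3 j
      exact (h2 j).2 (h3 _)
  · by_contra h2
    exact hx ((h1 x).2 ((hD x).2 (h J b x h2)))

end Pool.Agent.H71.SM
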