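import Mathlib

/-!
# The theorem of Skolem, Mahler and Lech for integral matrices congruent to one modulo three

`sml_seq`: if `∑ i, n.choose i * 3 ^ i * a i = 0` for infinitely many `n` then for all `n` (Hansel's proof).
`sml_nat`, `sml_int`: `w = 1 + 3 A` an automorphism of an abelian group, `f` an integral linear form, `x` an element: if
`f (w ^ j x) = 0` for infinitely many `j` then for all `j`.
-/

set_option autoImplicit false

namespace Pool.Agent.H71.SM

open Polynomial Finset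

/-- `3 ^ i / i!` is divisible by `3 ^ ⌈i / 2⌉` in the `3`-adic integers. -/
private theorem exists_beta (i : ℕ) :
    ∃ β : ℤ_[3], (i.factorial : ℤ_[3]) * β = 3 ^ i ∧ (3 : ℤ_[3]) ^ ((i + 1) / 2) ∣ β := by
  have h0 : (i.factorial : ℤ_[3]) ≠ 0 := by exact_mod_cast i.factorial_ne_zero
  obtain ⟨v, m, hm, he⟩ := Nat.exists_eq_pow_mul_and_not_dvd i.factorial_ne_zero 3 (by norm_num)
  have hm0 : m ≠ 0 := fun h => hm (h ▸ dvd_zero 3)
  have hv : padicValNat 3 i.factorial = v := by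
    rw [he, padicValNat.mul (pow_ne_zero _ (by norm_num)) hm0, padicValNat.prime_pow,
      padicValNat.eq_zero_of_not_dvd hm, add_zero]
  have h1 := sub_one_mul_padicValNat_factorial (p := 3) i
  rw [hv] at h1
  have h2 : 2 * v ≤ i := by omega
  have hu : IsUnit (m : ℤ_[3]) := by
    rw [PadicInt.isUnit_iff]
    by_contra h3
    have h4 : ‖((m : ℤ) : ℤ_[3])‖ < 1 := by
      rw [Int.cast_natCast]
      exact lt_of_le_of_ne (PadicInt.norm_le_one _) h3
    rw [PadicInt.norm_int_lt_one_iff_dvd] at h4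
    exact hm (by exact_mod_cast h4)
  obtain ⟨u, hu⟩ := hu
  refine ⟨(↑u⁻¹ : ℤ_[3]) * 3 ^ (i - v), ?_, ?_⟩
  · rw [he]
    push_cast
    rw [← hu]
    have h5 : (3 : ℤ_[3]) ^ v * ↑u * (↑u⁻¹ * 3 ^ (i - v)) = (↑u * ↑u⁻¹) * (3 ^ v * 3 ^ (i - v)) := by ring
    rw [h5, Units.mul_inv, one_mul, ← pow_add]
    congr 1
    omega
  · exact Dvd.dvd.mul_left (pow_dvd_pow _ (by omega)) _

/-- the interpolation polynomial -/
private noncomputable def ip (a : ℕ → ℤ) (β : ℕ → ℤ_[3]) (n : ℕ) : ℤ_[3][X] :=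
  ∑ i ∈ range (n + 1), C (β i * (a i : ℤ_[3])) * descPochhammer ℤ_[3] i

private theorem ip_eval (a : ℕ → ℤ) {β : ℕ → ℤ_[3]} (hβ : ∀ i, (i.factorial : ℤ_[3]) * β i = 3 ^ i) {n t : ℕ}
    (ht : t ≤ n) : (ip a β n).eval (t : ℤ_[3]) =
      ((∑ i ∈ range (t + 1), (t.choose i : ℤ) * 3 ^ i * a i : ℤ) : ℤ_[3]) := by
  unfold ip
  rw [eval_finsetSum]
  have h1 : ∀ i, (C (β i * (a i : ℤ_[3])) * descPochhammer ℤ_[3] i).eval (t : ℤ_[3]) =
      (t.choose i : ℤ_[3]) * 3 ^ i * a i := by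
    intro i
    rw [eval_mul, eval_C, descPochhammer_eval_eq_descFactorial, Nat.descFactorial_eq_factorial_mul_choose]
    push_cast
    rw [← hβ i]
    ring
  rw [Finset.sum_congr rfl fun i _ => h1 i]
  push_cast
  symm
  refine Finset.sum_subset (range_subset_range.2 (by omega)) fun i _ hi => ?_
  rw [Finset.mem_range, not_lt] at hi
  rw [Nat.choose_eq_zero_of_lt (by omega), Nat.cast_zero, zero_mul, zero_mul]

private theorem ip_coeff (a : ℕ → ℤ) {β : ℕ → ℤ_[3]} (hβ : ∀ i, (3 : ℤ_[3]) ^ ((i + 1) / 2) ∣ β i) (n : ℕ) {k j : ℕ}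
    (hj : k ≤ j) : (3 : ℤ_[3]) ^ ((k + 1) / 2) ∣ (ip a β n).coeff j := by
  unfold ip
  rw [finsetSum_coeff]
  refine Finset.dvd_sum fun i _ => ?_
  rw [coeff_C_mul]
  by_cases h : i < j
  · rw [coeff_eq_zero_of_natDegree_lt (lt_of_eq_of_lt (descPochhammer_natDegree _ _) h), mul_zero]
    exact dvd_zero _
  · exact Dvd.dvd.mul_right (Dvd.dvd.mul_right ((pow_dvd_pow _ (by omega)).trans (hβ i)) _) _

/-- if the coefficients of index `≥ k` of `q * r`, `q` monic of degree `k`, are divisible by `d`, then so are all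
coefficients of `r` -/
private theorem dvd_coeff_of_monic {R : Type} [CommRing R] {d : R} {q r : R[X]} (hq : q.Monic) {k : ℕ}
    (hk : q.natDegree = k) (h : ∀ j, k ≤ j → d ∣ (q * r).coeff j) : C d ∣ r := by
  rw [C_dvd_iff_dvd_coeff]
  have hnt : ∀ x : R, d ∣ x ↔ Ideal.Quotient.mk (Ideal.span {d}) x = 0 := fun x => by
    rw [Ideal.Quotient.eq_zero_iff_mem, Ideal.mem_span_singleton]
  by_cases hd : IsUnit d
  · exact fun i => hd.dvd
  have : Nontrivial (R ⧸ Ideal.span {d}) := by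
    rw [Ideal.Quotient.nontrivial_iff]
    rwa [Ne, Ideal.span_singleton_eq_top]
  have h1 : (q * r).map (Ideal.Quotient.mk (Ideal.span {d})) =
      q.map (Ideal.Quotient.mk (Ideal.span {d})) * r.map (Ideal.Quotient.mk (Ideal.span {d})) := Polynomial.map_mul _
  have h2 : r.map (Ideal.Quotient.mk (Ideal.span {d})) = 0 := by
    by_contra h3
    have hq' := hq.map (Ideal.Quotient.mk (Ideal.span {d}))
    have h4 : (q * r).map (Ideal.Quotient.mk (Ideal.span {d})) ≠ 0 := by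
      rw [h1]
      intro h5
      exact h3 ((hq'.mul_right_eq_zero_iff).1 h5)
    have h5 : ((q * r).map (Ideal.Quotient.mk (Ideal.span {d}))).natDegree =
        k + (r.map (Ideal.Quotient.mk (Ideal.span {d}))).natDegree := by
      rw [h1, hq'.natDegree_mul' h3, hq.natDegree_map, hk]
    refine h4 (leadingCoeff_eq_zero.1 ?_)
    rw [leadingCoeff, h5, coeff_map, ← hnt]
    exact h _ (Nat.le_add_right _ _)
  intro i
  rw [hnt, ← coeff_map, h2, coeff_zero]

/-- Infinitely many zeros: all terms are zero. -/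
theorem sml_seq (a : ℕ → ℤ)
    (h : {n : ℕ | ∑ i ∈ range (n + 1), (n.choose i : ℤ) * 3 ^ i * a i = 0}.Infinite) (t : ℕ) :
    ∑ i ∈ range (t + 1), (t.choose i : ℤ) * 3 ^ i * a i = 0 := by
  choose β hβ1 hβ2 using exists_beta
  have key : ∀ k : ℕ, (3 : ℤ) ^ ((k + 1) / 2) ∣ ∑ i ∈ range (t + 1), (t.choose i : ℤ) * 3 ^ i * a i := by
    intro k
    obtain ⟨T, hT, hk⟩ := h.exists_subset_card_eq k
    obtain ⟨n, hn⟩ : ∃ n, ∀ s ∈ insert t T, s ≤ n := ⟨(insert t T).sup id, fun s hs => Finset.le_sup (f := id) hs⟩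
    have hp3 : (3 : ℤ_[3]) ^ ((k + 1) / 2) ∣ (ip a β n).eval (t : ℤ_[3]) := by
      by_cases h0 : ip a β n = 0
      · rw [h0, eval_zero]; exact dvd_zero _
      have h1 : T.val.map (fun s : ℕ => (s : ℤ_[3])) ≤ (ip a β n).roots := by
        rw [Multiset.le_iff_subset (T.nodup.map Nat.cast_injective)]
        intro x hx
        obtain ⟨s, hs, rfl⟩ := Multiset.mem_map.1 hx
        rw [mem_roots h0, IsRoot.def, ip_eval a hβ1 (hn s (Finset.mem_insert_of_mem hs))]
        have h2 := hT hs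
        simp only [Set.mem_ofPred_eq] at h2
        rw [h2, Int.cast_zero]
      have h2 : ((T.val.map (fun s : ℕ => (s : ℤ_[3]))).map fun x => X - C x).prod ∣ ip a β n :=
        (Multiset.prod_dvd_prod_of_le (Multiset.map_le_map h1)).trans (prod_multiset_X_sub_C_dvd _)
      obtain ⟨r, hr⟩ := h2
      have hmon : ((T.val.map (fun s : ℕ => (s : ℤ_[3]))).map fun x => X - C x).prod.Monic :=
        monic_multiset_prod_of_monic _ _ fun x _ => monic_X_sub_C x
      have hdeg : ((T.val.map (fun s : ℕ => (s : ℤ_[3]))).map fun x => X - C x).prod.natDegree = k := by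
        rw [natDegree_multiset_prod_X_sub_C_eq_card, Multiset.card_map, Finset.card_val, hk]
      have h3 : C ((3 : ℤ_[3]) ^ ((k + 1) / 2)) ∣ r := by
        refine dvd_coeff_of_monic hmon hdeg fun j hj => ?_
        rw [← hr]
        exact ip_coeff a hβ2 n hj
      obtain ⟨s, hs⟩ := h3
      rw [hr, hs, eval_mul, eval_mul, eval_C]
      exact Dvd.dvd.mul_left (Dvd.intro _ rfl) _
    rw [ip_eval a hβ1 (hn t (Finset.mem_insert_self _ _))] at hp3
    have h4 := (PadicInt.pow_p_dvd_int_iff (p := 3) ((k + 1) / 2) _).1 (by exact_mod_cast hp3)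
    exact_mod_cast h4
  by_contra h5
  have h6 := key (2 * (∑ i ∈ range (t + 1), (t.choose i : ℤ) * 3 ^ i * a i).natAbs)
  have h7 := Int.natAbs_dvd_natAbs.2 h6
  have h8 := Nat.le_of_dvd (Int.natAbs_pos.2 h5) h7
  rw [Int.natAbs_pow] at h8
  have h9 : (2 * (∑ i ∈ range (t + 1), (t.choose i : ℤ) * 3 ^ i * a i).natAbs + 1) / 2 =
      (∑ i ∈ range (t + 1), (t.choose i : ℤ) * 3 ^ i * a i).natAbs := by omega
  rw [h9] at h8
  have h10 : (∑ i ∈ range (t + 1), (t.choose i : ℤ) * 3 ^ i * a i).natAbs <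
      Int.natAbs 3 ^ (∑ i ∈ range (t + 1), (t.choose i : ℤ) * 3 ^ i * a i).natAbs :=
    Nat.lt_pow_self (by decide)
  omega

variable {V : Type} [AddCommGroup V]

/-- `f ((1 + 3 A) ^ j x)` is zero for infinitely many natural numbers `j`: then for all. -/
theorem sml_nat (A : Module.End ℤ V) (f : V →ₗ[ℤ] ℤ) (x : V)
    (h : {j : ℕ | f (((1 + 3 * A) ^ j) x) = 0}.Infinite) (j : ℕ) : f (((1 + 3 * A) ^ j) x) = 0 := by
  have key : ∀ n : ℕ, f (((1 + 3 * A) ^ n) x) =
      ∑ i ∈ range (n + 1), (n.choose i : ℤ) * 3 ^ i * f ((A ^ i) x) := by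
    intro n
    have h1 : (1 + 3 * A) ^ n = ∑ i ∈ range (n + 1), ((n.choose i : ℤ) * 3 ^ i) • A ^ i := by
      rw [add_comm, (Commute.one_right (3 * A)).add_pow]
      refine Finset.sum_congr rfl fun i _ => ?_
      have h3 : ((3 : Module.End ℤ V) * A) = (3 : ℤ) • A := by
        rw [zsmul_eq_mul]; norm_num
      rw [one_pow, mul_one, h3, _root_.smul_pow, mul_comm ((n.choose i : ℤ)), mul_smul, smul_comm, ← Nat.cast_comm,
        zsmul_eq_mul]
      norm_cast
    rw [h1, LinearMap.sum_apply, map_sum]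
    refine Finset.sum_congr rfl fun i _ => ?_
    rw [LinearMap.smul_apply, map_smul, smul_eq_mul]
  rw [key]
  refine sml_seq (fun i => f ((A ^ i) x)) ?_ j
  have h2 : {j : ℕ | f (((1 + 3 * A) ^ j) x) = 0} =
      {n : ℕ | ∑ i ∈ range (n + 1), (n.choose i : ℤ) * 3 ^ i * f ((A ^ i) x) = 0} := by
    ext n
    rw [Set.mem_ofPred_eq, Set.mem_ofPred_eq, key]
  rwa [← h2]

/-- The same for integers: `ρ g` and `ρ g⁻¹` are congruent to one modulo three. -/
theorem sml_int {G : Type} [Group G] (ρ : G →* Module.End ℤ V) (g : G) (A A' : Module.End ℤ V)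
    (hA : ρ g = 1 + 3 * A) (hA' : ρ g⁻¹ = 1 + 3 * A') (f : V →ₗ[ℤ] ℤ) (x : V)
    (h : {j : ℤ | f (ρ (g ^ j) x) = 0}.Infinite) (j : ℤ) : f (ρ (g ^ j) x) = 0 := by
  -- one direction
  have key : ∀ (g : G) (A : Module.End ℤ V), ρ g = 1 + 3 * A → {n : ℕ | f (ρ (g ^ (n : ℤ)) x) = 0}.Infinite →
      ∀ j : ℤ, f (ρ (g ^ j) x) = 0 := by
    intro g A hA h j
    have h1 : ∀ n : ℕ, ((1 + 3 * A) ^ n) (ρ (g ^ j) x) = ρ (g ^ ((n : ℤ) + j)) x := by
      intro n
      rw [← hA, ← map_pow, ← Module.End.mul_apply, ← map_mul, zpow_add, zpow_natCast]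
    have h2 : {n : ℕ | f (((1 + 3 * A) ^ n) (ρ (g ^ j) x)) = 0}.Infinite := by
      have h3 : ({n : ℕ | f (ρ (g ^ (n : ℤ)) x) = 0} \ {n : ℕ | n < j.natAbs}).Infinite :=
        h.sdiff (Set.finite_lt_nat _)
      have h4 : Set.InjOn (fun n : ℕ => ((n : ℤ) - j).toNat)
          ({n : ℕ | f (ρ (g ^ (n : ℤ)) x) = 0} \ {n : ℕ | n < j.natAbs}) := by
        intro a ha b hb hab
        have ha' : ¬ a < j.natAbs := ha.2
        have hb' : ¬ b < j.natAbs := hb.2
        have hab' : ((a : ℤ) - j).toNat = ((b : ℤ) - j).toNat := hab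
        omega
      refine (h3.image h4).mono ?_
      rintro _ ⟨n, hn, rfl⟩
      have hn' : ¬ n < j.natAbs := hn.2
      have h5 : f (ρ (g ^ (n : ℤ)) x) = 0 := hn.1
      show f (((1 + 3 * A) ^ ((n : ℤ) - j).toNat) (ρ (g ^ j) x)) = 0
      rw [h1]
      have h6 : (((n : ℤ) - j).toNat : ℤ) + j = n := by omega
      rw [h6, h5]
    have h7 := sml_nat A f (ρ (g ^ j) x) h2 0
    rwa [pow_zero, Module.End.one_apply] at h7
  have h1 : {j : ℤ | f (ρ (g ^ j) x) = 0} ⊆
      ((fun n : ℕ => (n : ℤ)) '' {n : ℕ | f (ρ (g ^ (n : ℤ)) x) = 0}) ∪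
      ((fun n : ℕ => -(n : ℤ)) '' {n : ℕ | f (ρ (g⁻¹ ^ (n : ℤ)) x) = 0}) := by
    intro j hj
    have hj' : f (ρ (g ^ j) x) = 0 := hj
    rcases Int.natAbs_eq j with h2 | h2
    · refine Or.inl ⟨j.natAbs, ?_, h2.symm⟩
      show f (ρ (g ^ ((j.natAbs : ℕ) : ℤ)) x) = 0
      rw [← h2]
      exact hj'
    · refine Or.inr ⟨j.natAbs, ?_, h2.symm⟩
      show f (ρ (g⁻¹ ^ ((j.natAbs : ℕ) : ℤ)) x) = 0
      rw [inv_zpow', ← h2]
      exact hj'
  rcases Set.infinite_union.1 (h.mono h1) with h2 | h2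
  · exact key g A hA (Set.Infinite.of_image _ h2) j
  · have h3 := key g⁻¹ A' hA' (Set.Infinite.of_image _ h2) (-j)
    rwa [inv_zpow', neg_neg] at h3

end Pool.Agent.H71.SM
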